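import Pool.Agent.H6.Snow.Trig

/-!
# From the basic inequality to Rademacher cotype
-/

namespace Pool.Agent.H6.Snow

open Finset

/-- `Y` has Rademacher cotype `q` with constant `C`; the expectation over `k` independent uniform
signs is the average over all `ε : Fin k → Bool`. -/
def HasCotype (Y : Type*) [NormedAddCommGroup Y] [NormedSpace ℝ Y] (q C : ℝ) : Prop :=
  ∀ (k : ℕ) (y : Fin k → Y),
    (∑ j, ‖y j‖ ^ q) ^ (1 / q) ≤
      C * ((∑ ε : Fin k → Bool, ‖∑ j, (if ε j then (1 : ℝ) else -1) • y j‖ ^ q) / 2 ^ k) ^ (1 / q)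

/-- The first Rademacher average. -/
noncomputable def avg {Y : Type*} [NormedAddCommGroup Y] [NormedSpace ℝ Y] {k : ℕ}
    (v : Fin k → Y) : ℝ :=
  (∑ ε : Fin k → Bool, ‖∑ j, sg (ε j) • v j‖) / 2 ^ k

variable {Y : Type*} [NormedAddCommGroup Y] [NormedSpace ℝ Y]

lemma avg_nonneg {k : ℕ} (v : Fin k → Y) : 0 ≤ avg v := by
  unfold avg
  positivity

lemma avg_le {k : ℕ} (v : Fin k → Y) {q : ℝ} (hq : 1 ≤ q) :
    avg v ≤ ((∑ ε : Fin k → Bool, ‖∑ j, (if ε j then (1 : ℝ) else -1) • v j‖ ^ q) / 2 ^ k)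
      ^ (1 / q) := by
  have h := Real.arith_mean_le_rpow_mean (univ : Finset (Fin k → Bool))
    (fun _ => 1 / 2 ^ k) (fun ε => ‖∑ j, sg (ε j) • v j‖) (fun _ _ => by positivity)
    (by
      rw [Finset.sum_const, Finset.card_univ]
      simp) (fun _ _ => norm_nonneg _) hq
  have e1 : avg v = ∑ ε : Fin k → Bool, 1 / 2 ^ k * ‖∑ j, sg (ε j) • v j‖ := by
    unfold avg
    rw [← Finset.mul_sum]
    ring
  have e2 : (∑ ε : Fin k → Bool, ‖∑ j, (if ε j then (1 : ℝ) else -1) • v j‖ ^ q) / 2 ^ k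
      = ∑ ε : Fin k → Bool, 1 / 2 ^ k * ‖∑ j, sg (ε j) • v j‖ ^ q := by
    rw [← Finset.mul_sum]
    simp only [sg]
    ring
  rw [e1, e2]
  exact h

/-- The basic inequality satisfied by our space. -/
def Basic (Y : Type*) [NormedAddCommGroup Y] [NormedSpace ℝ Y] (a c : ℝ) : Prop :=
  ∀ (k : ℕ) (v : Fin k → Y) (A : Finset (Fin k)) (j : ℕ), A.card ≤ 4 ^ j →
    c * (2 : ℝ) ^ (-((1 + a) * j)) * ∑ i ∈ A, ‖v i‖ ≤ avg v

lemma basic_card {a c : ℝ} (ha0 : 0 < a) (ha1 : a < 1) (hc : 0 < c) (hY : Basic Y a c)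
    {k : ℕ} (v : Fin k → Y) (A : Finset (Fin k)) (hA : 1 ≤ A.card) {r : ℝ} (hr : 0 ≤ r)
    (hv : ∀ i ∈ A, r ≤ ‖v i‖) :
    c / 4 * (A.card : ℝ) ^ ((1 - a) / 2) * r ≤ avg v := by
  set l := A.card with hl
  set j := Nat.clog 4 l with hj
  have h1 : l ≤ 4 ^ j := Nat.le_pow_clog (by norm_num) l
  have h2 : (4 : ℕ) ^ j ≤ 4 * l := by
    rcases Nat.eq_zero_or_pos j with h | h
    · rw [h]; omega
    · have : 1 < l := by
        by_contra hcon
        have : l = 1 := by omega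
        rw [this] at hj
        rw [Nat.clog_one_right] at hj
        omega
      have h3 := Nat.pow_pred_clog_lt_self (b := 4) (by norm_num) this
      rw [← hj] at h3
      have h4 : (4 : ℕ) ^ j = 4 * 4 ^ j.pred := by
        rw [← pow_succ']
        congr 1
        rw [Nat.pred_eq_sub_one]
        omega
      omega
  have hl0 : (0 : ℝ) < l := by exact_mod_cast hA
  have h3 := hY k v A j h1
  have h4 : (l : ℝ) * r ≤ ∑ i ∈ A, ‖v i‖ := by
    rw [hl, ← nsmul_eq_mul]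
    exact Finset.card_nsmul_le_sum _ _ _ hv
  have h5 : (1 / 4 : ℝ) * (l : ℝ) ^ (-((1 + a) / 2)) ≤ (2 : ℝ) ^ (-((1 + a) * j)) := by
    have e1 : (2 : ℝ) ^ (-((1 + a) * j)) = ((4 : ℝ) ^ j) ^ (-((1 + a) / 2)) := by
      rw [show (4 : ℝ) = 2 ^ (2 : ℕ) by norm_num, ← pow_mul, ← Real.rpow_natCast,
        ← Real.rpow_mul (by norm_num)]
      congr 1
      push_cast
      ring
    rw [e1]
    have h6 : ((4 : ℝ) ^ j) ≤ 4 * l := by exact_mod_cast h2
    calc (1 / 4 : ℝ) * (l : ℝ) ^ (-((1 + a) / 2))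
        ≤ (4 : ℝ) ^ (-((1 + a) / 2)) * (l : ℝ) ^ (-((1 + a) / 2)) := by
          apply mul_le_mul_of_nonneg_right _ (by positivity)
          have : (4 : ℝ) ^ (-1 : ℝ) ≤ (4 : ℝ) ^ (-((1 + a) / 2)) :=
            Real.rpow_le_rpow_of_exponent_le (by norm_num) (by linarith)
          rw [Real.rpow_neg_one] at this
          linarith
      _ = (4 * (l : ℝ)) ^ (-((1 + a) / 2)) := by
          rw [Real.mul_rpow (by norm_num) hl0.le]
      _ ≤ ((4 : ℝ) ^ j) ^ (-((1 + a) / 2)) :=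
          Real.rpow_le_rpow_of_nonpos (by positivity) h6 (by linarith)
  calc c / 4 * (l : ℝ) ^ ((1 - a) / 2) * r
      = c * ((1 / 4 : ℝ) * (l : ℝ) ^ (-((1 + a) / 2))) * ((l : ℝ) * r) := by
        have : (l : ℝ) ^ ((1 - a) / 2) = (l : ℝ) ^ (-((1 + a) / 2)) * l := by
          nth_rewrite 3 [← Real.rpow_one (l : ℝ)]
          rw [← Real.rpow_add hl0]
          congr 1
          ring
        rw [this]
        ring
    _ ≤ c * (2 : ℝ) ^ (-((1 + a) * j)) * ∑ i ∈ A, ‖v i‖ := by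
        apply mul_le_mul _ h4 (by positivity) (by positivity)
        exact mul_le_mul_of_nonneg_left h5 hc.le
    _ ≤ avg v := h3

/-- The basic inequality gives cotype `q` for every `q > 2 / (1 - a)`. -/
theorem hasCotype_of_basic {a c : ℝ} (ha0 : 0 < a) (ha1 : a < 1) (hc : 0 < c)
    (hY : Basic Y a c) {q : ℝ} (hq : 2 / (1 - a) < q) :
    HasCotype Y q (4 / c * (∑' l : ℕ, ((l + 1 : ℕ) : ℝ) ^ (-((1 - a) / 2 * q))) ^ (1 / q)) := by
  have h1a : 0 < 1 - a := by linarith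
  have hq2 : 2 < q := by
    have : 2 < 2 / (1 - a) := by
      rw [lt_div_iff₀ h1a]; linarith
    linarith
  have hq0 : 0 < q := by linarith
  have hexp : 1 < (1 - a) / 2 * q := by
    rw [div_lt_iff₀ h1a] at hq
    linarith
  set g : ℝ := (1 - a) / 2 with hg
  have hg0 : 0 < g := by rw [hg]; linarith
  set Z := ∑' l : ℕ, ((l + 1 : ℕ) : ℝ) ^ (-(g * q)) with hZ
  have hsum : Summable (fun l : ℕ => ((l + 1 : ℕ) : ℝ) ^ (-(g * q))) := by
    have h := (Real.summable_nat_rpow (p := -(g * q))).2 (by linarith)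
    exact (summable_nat_add_iff (f := fun n : ℕ => (n : ℝ) ^ (-(g * q))) 1).2 h
  have hZ0 : 0 ≤ Z := tsum_nonneg (fun l => by positivity)
  intro k v
  refine le_trans ?_ (mul_le_mul_of_nonneg_left (avg_le v (by linarith)) (by positivity))
  set S := avg v with hS
  have hS0 : 0 ≤ S := avg_nonneg v
  set σ := Tuple.sort (fun i => ‖v i‖) with hσ
  have hmono : Monotone (fun i => ‖v (σ i)‖) := Tuple.monotone_sort (fun i => ‖v i‖)
  have hpt : ∀ i : Fin k, ‖v (σ i)‖ ^ q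
      ≤ (4 / c * S) ^ q * (((Fin.rev i : ℕ) + 1 : ℕ) : ℝ) ^ (-(g * q)) := by
    intro i
    set A : Finset (Fin k) := (Finset.Ici i).map σ.toEmbedding with hA
    have hcard : A.card = (Fin.rev i : ℕ) + 1 := by
      rw [hA, Finset.card_map, Fin.card_Ici, Fin.val_rev]
      have := i.2
      omega
    have h := basic_card ha0 ha1 hc hY v A (by omega) (norm_nonneg (v (σ i))) (by
      intro j hj
      rw [hA, Finset.mem_map] at hj
      obtain ⟨t, ht, rfl⟩ := hj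
      exact hmono (Finset.mem_Ici.1 ht))
    rw [hcard, ← hS, ← hg] at h
    set L : ℝ := (((Fin.rev i : ℕ) + 1 : ℕ) : ℝ) with hL
    have hL0 : 0 < L := by rw [hL]; positivity
    have h2 : ‖v (σ i)‖ ≤ 4 / c * S * L ^ (-g) := by
      have hLg : 0 < L ^ g := Real.rpow_pos_of_pos hL0 _
      rw [Real.rpow_neg hL0.le, ← div_eq_mul_inv, le_div_iff₀ hLg]
      have : c / 4 * (L ^ g * ‖v (σ i)‖) ≤ S := by linarith
      calc ‖v (σ i)‖ * L ^ g = 4 / c * (c / 4 * (L ^ g * ‖v (σ i)‖)) := by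
            field_simp
        _ ≤ 4 / c * S := mul_le_mul_of_nonneg_left this (by positivity)
    calc ‖v (σ i)‖ ^ q ≤ (4 / c * S * L ^ (-g)) ^ q :=
          Real.rpow_le_rpow (norm_nonneg _) h2 hq0.le
      _ = (4 / c * S) ^ q * L ^ (-(g * q)) := by
          rw [Real.mul_rpow (by positivity) (by positivity), ← Real.rpow_mul hL0.le]
          congr 2
          ring
  have htot : ∑ j, ‖v j‖ ^ q ≤ (4 / c * S) ^ q * Z := by
    calc ∑ j, ‖v j‖ ^ q = ∑ i, ‖v (σ i)‖ ^ q := (Equiv.sum_comp σ (fun j => ‖v j‖ ^ q)).symm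
      _ ≤ ∑ i, (4 / c * S) ^ q * (((Fin.rev i : ℕ) + 1 : ℕ) : ℝ) ^ (-(g * q)) :=
          Finset.sum_le_sum (fun i _ => hpt i)
      _ = (4 / c * S) ^ q * ∑ i : Fin k, (((i : ℕ) + 1 : ℕ) : ℝ) ^ (-(g * q)) := by
          rw [← Finset.mul_sum]
          congr 1
          exact Equiv.sum_comp Fin.revPerm (fun i : Fin k => (((i : ℕ) + 1 : ℕ) : ℝ) ^ (-(g * q)))
      _ ≤ (4 / c * S) ^ q * Z := by
          apply mul_le_mul_of_nonneg_left _ (by positivity)
          rw [Fin.sum_univ_eq_sum_range (fun i => (((i : ℕ) + 1 : ℕ) : ℝ) ^ (-(g * q))) k]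
          exact hsum.sum_le_tsum _ (fun i _ => by positivity)
  calc (∑ j, ‖v j‖ ^ q) ^ (1 / q) ≤ ((4 / c * S) ^ q * Z) ^ (1 / q) :=
        Real.rpow_le_rpow (Finset.sum_nonneg (fun _ _ => by positivity)) htot (by positivity)
    _ = 4 / c * Z ^ (1 / q) * S := by
        rw [Real.mul_rpow (by positivity) hZ0, ← Real.rpow_mul (by positivity),
          mul_one_div_cancel hq0.ne', Real.rpow_one]
        ring

end Pool.Agent.H6.Snow
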