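import Pool.Agent.H6.Snow.Space

/-!
# The key inequality
-/

namespace Pool.Agent.H6.Snow

open Finset

variable {M : Type*} [PseudoMetricSpace M]

lemma sum_apply' {n : ℕ} (c : Fin n → ℝ) (v : Fin n → Z M) (k : ℤ) :
    (∑ i, c i • v i : Z M) k = ∑ i, c i • (v i k) := by
  rw [lp.coeFn_sum, Finset.sum_apply]
  refine Finset.sum_congr rfl (fun i _ => ?_)
  rw [lp.coeFn_smul, Pi.smul_apply]

lemma sum_apply_apply {n : ℕ} (c : Fin n → ℝ) (v : Fin n → Z M) (k : ℤ)
    (φ : Test M ((2 : ℝ) ^ k)) :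
    (∑ i, c i • v i : Z M) k φ = ∑ i, c i * (v i k φ) := by
  rw [sum_apply', BoundedContinuousFunction.sum_apply]
  refine Finset.sum_congr rfl (fun i _ => ?_)
  rw [BoundedContinuousFunction.smul_apply, smul_eq_mul]

/-- The key inequality, one scale. -/
lemma key_scale {α : ℝ} {n : ℕ} (v : Fin n → Z M) (L : Fin n → (M → ℝ) →ₗ[ℝ] ℝ)
    (hL : ∀ i, Rep α (v i) (L i)) (s : Fin n → ℝ) (hs0 : ∀ i, 0 ≤ s i)
    (hs2 : ∑ i, s i ^ 2 ≤ 1 / 4) (j : ℕ) (hs1 : ∑ i, s i ≤ 2 ^ j) (k : ℤ) :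
    w α j * (5 / 8) * ∑ i, s i * ‖v i k‖
      ≤ (∑ ε : Fin n → Bool, ‖(∑ i, sg (ε i) • v i : Z M) (k + j)‖) / 2 ^ n := by
  set T := (∑ ε : Fin n → Bool, ‖(∑ i, sg (ε i) • v i : Z M) (k + j)‖) / 2 ^ n with hT
  have hwj := w_pos α j
  -- it is enough to prove the estimate up to a small error
  suffices h : ∀ δ : ℝ, 0 < δ →
      w α j * ∑ i, (s i * (‖v i k‖ - δ) - 3 / 8 * s i * ‖v i k‖) ≤ T by
    have e : ∀ δ : ℝ, w α j * ∑ i, (s i * (‖v i k‖ - δ) - 3 / 8 * s i * ‖v i k‖)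
        = w α j * (5 / 8) * ∑ i, s i * ‖v i k‖ - δ * (w α j * ∑ i, s i) := by
      intro δ
      rw [mul_assoc, Finset.mul_sum (a := (5 / 8 : ℝ)), mul_left_comm δ, ← mul_sub,
        Finset.mul_sum (a := δ), ← Finset.sum_sub_distrib]
      congr 1
      refine Finset.sum_congr rfl (fun i _ => ?_)
      ring
    have hC : 0 ≤ w α j * ∑ i, s i := mul_nonneg hwj.le (Finset.sum_nonneg (fun i _ => hs0 i))
    refine le_of_forall_pos_le_add (fun η hη => ?_)
    have h1 := h (η / (w α j * ∑ i, s i + 1)) (by positivity)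
    rw [e] at h1
    have h2 : η / (w α j * ∑ i, s i + 1) * (w α j * ∑ i, s i) ≤ η := by
      rw [div_mul_eq_mul_div, div_le_iff₀ (by positivity)]
      nlinarith
    linarith
  intro δ hδ
  choose φ hφ using fun i => exists_test (hL i) k hδ
  -- the functions θ_i
  set θ : Fin n → M → ℝ := fun i x => s i * (φ i).fn x with hθ
  have hθb : ∀ i x, |θ i x| ≤ s i := fun i x => by
    rw [hθ]
    show |s i * (φ i).fn x| ≤ s i
    rw [abs_mul, abs_of_nonneg (hs0 i)]
    calc s i * |(φ i).fn x| ≤ s i * 1 := mul_le_mul_of_nonneg_left ((φ i).bdd x) (hs0 i)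
      _ = s i := mul_one _
  have hθl : ∀ i x y, |θ i x - θ i y| ≤ s i * ((2 : ℝ) ^ k * dist x y) := fun i x y => by
    show |s i * (φ i).fn x - s i * (φ i).fn y| ≤ _
    rw [← mul_sub, abs_mul, abs_of_nonneg (hs0 i)]
    exact mul_le_mul_of_nonneg_left ((φ i).lip x y) (hs0 i)
  have hpow : (2 : ℝ) ^ (k + (j : ℤ)) = 2 ^ j * (2 : ℝ) ^ k := by
    rw [zpow_add₀ (by norm_num), zpow_natCast]
    ring
  -- the test function of a sign vector
  let ψ : (Fin n → Bool) → Test M ((2 : ℝ) ^ (k + (j : ℤ))) := fun ε =>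
    { fn := fun x => Real.sin (∑ i, sg (ε i) * θ i x)
      bdd := fun x => Real.abs_sin_le_one _
      lip := fun x y => by
        refine le_trans (Real.abs_sin_sub_sin_le _ _) ?_
        rw [← Finset.sum_sub_distrib]
        refine le_trans (Finset.abs_sum_le_sum_abs _ _) ?_
        calc ∑ i, |sg (ε i) * θ i x - sg (ε i) * θ i y|
            ≤ ∑ i, s i * ((2 : ℝ) ^ k * dist x y) := by
              refine Finset.sum_le_sum (fun i _ => ?_)
              rw [← mul_sub, abs_mul, abs_sg, one_mul]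
              exact hθl i x y
          _ = (∑ i, s i) * ((2 : ℝ) ^ k * dist x y) := by rw [Finset.sum_mul]
          _ ≤ 2 ^ j * ((2 : ℝ) ^ k * dist x y) :=
              mul_le_mul_of_nonneg_right hs1 (by positivity)
          _ = (2 : ℝ) ^ (k + (j : ℤ)) * dist x y := by rw [hpow]; ring }
  have hψ : ∀ ε : Fin n → Bool, ∑ i, sg (ε i) * (w α (k + j) * L i (ψ ε).fn)
      ≤ ‖(∑ i, sg (ε i) • v i : Z M) (k + j)‖ := by
    intro ε
    have h1 := abs_apply_le (∑ i, sg (ε i) • v i : Z M) (k + j) (ψ ε)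
    rw [sum_apply_apply] at h1
    have h2 := le_trans (le_abs_self _) h1
    refine le_trans (le_of_eq ?_) h2
    refine Finset.sum_congr rfl (fun i _ => ?_)
    rw [hL i (k + j) (ψ ε)]
  -- the average of `ε_i ψ_ε`
  have havg : ∀ i, ∑ ε : Fin n → Bool, sg (ε i) • (ψ ε).fn
      = (2 : ℝ) ^ n • (fun x => G i (fun l => θ l x)) := by
    intro i
    funext x
    rw [Finset.sum_apply]
    have h := sum_sign_sin (fun l => θ l x) i
    rw [Fintype.card_fin] at h
    rw [Pi.smul_apply, smul_eq_mul, ← h]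
    refine Finset.sum_congr rfl (fun ε _ => ?_)
    rw [Pi.smul_apply, smul_eq_mul]
  have hsum : ∑ ε : Fin n → Bool, ∑ i, sg (ε i) * (w α (k + j) * L i (ψ ε).fn)
      = 2 ^ n * (w α (k + j) * ∑ i, L i (fun x => G i (fun l => θ l x))) := by
    rw [Finset.sum_comm, Finset.mul_sum, Finset.mul_sum]
    refine Finset.sum_congr rfl (fun i _ => ?_)
    have h1 : ∑ ε : Fin n → Bool, sg (ε i) * (w α (k + j) * L i (ψ ε).fn)
        = w α (k + j) * L i (∑ ε : Fin n → Bool, sg (ε i) • (ψ ε).fn) := by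
      rw [map_sum, Finset.mul_sum]
      refine Finset.sum_congr rfl (fun ε _ => ?_)
      rw [map_smul, smul_eq_mul]
      ring
    rw [h1, havg i, map_smul, smul_eq_mul]
    ring
  -- the remainders
  have hrem : ∀ i, s i * (‖v i k‖ - δ) - 3 / 8 * s i * ‖v i k‖
      ≤ w α k * L i (fun x => G i (fun l => θ l x)) := by
    intro i
    have hb := rep_bound (hL i) k (r := fun x => θ i x - G i (fun l => θ l x))
      (b := 3 / 8 * s i) (mul_nonneg (by norm_num) (hs0 i)) (fun x => by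
        have h := G_lip hs2 (θ := fun l => θ l x) (η := 0) (fun l => hθb l x)
          (fun l => by simpa using hs0 l) (τ := 1) (fun l => by simpa using hθb l x)
          (by norm_num) i
        rw [G_zero, Pi.zero_apply, sub_zero, sub_zero] at h
        linarith) (fun x y => by
        have h := G_lip hs2 (θ := fun l => θ l x) (η := fun l => θ l y) (fun l => hθb l x)
          (fun l => hθb l y) (τ := (2 : ℝ) ^ k * dist x y) (fun l => hθl l x y)
          (by positivity) i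
        linarith)
    have e : (fun x => G i (fun l => θ l x))
        = s i • (φ i).fn - (fun x => θ i x - G i (fun l => θ l x)) := by
      funext x
      simp only [Pi.sub_apply, Pi.smul_apply, smul_eq_mul, hθ]
      ring
    rw [e, map_sub, map_smul, smul_eq_mul]
    have h1 := (abs_le.1 hb).2
    have h2 := mul_le_mul_of_nonneg_left (hφ i).le (hs0 i)
    nlinarith [h1, h2]
  have h3 : ∑ i, (s i * (‖v i k‖ - δ) - 3 / 8 * s i * ‖v i k‖)
      ≤ w α k * ∑ i, L i (fun x => G i (fun l => θ l x)) := by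
    rw [Finset.mul_sum]
    exact Finset.sum_le_sum (fun i _ => hrem i)
  have h4 : 2 ^ n * (w α (k + j) * ∑ i, L i (fun x => G i (fun l => θ l x)))
      ≤ ∑ ε : Fin n → Bool, ‖(∑ i, sg (ε i) • v i : Z M) (k + j)‖ := by
    rw [← hsum]
    exact Finset.sum_le_sum (fun ε _ => hψ ε)
  rw [hT, le_div_iff₀ (by positivity)]
  calc (w α j * ∑ i, (s i * (‖v i k‖ - δ) - 3 / 8 * s i * ‖v i k‖)) * 2 ^ n
      ≤ 2 ^ n * (w α (k + j) * ∑ i, L i (fun x => G i (fun l => θ l x))) := by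
        rw [w_add]
        have := mul_le_mul_of_nonneg_left h3 hwj.le
        have h2n : (0 : ℝ) ≤ 2 ^ n := by positivity
        have h5 := mul_le_mul_of_nonneg_right this h2n
        nlinarith [h5]
    _ ≤ _ := h4

/-- The key inequality in `Z`, for vectors that are given by functionals. -/
lemma key_rep {α : ℝ} {n : ℕ} (v : Fin n → Z M) (L : Fin n → (M → ℝ) →ₗ[ℝ] ℝ)
    (hL : ∀ i, Rep α (v i) (L i)) (s : Fin n → ℝ) (hs0 : ∀ i, 0 ≤ s i)
    (hs2 : ∑ i, s i ^ 2 ≤ 1 / 4) (j : ℕ) (hs1 : ∑ i, s i ≤ 2 ^ j) :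
    w α j * (5 / 8) * ∑ i, s i * ‖v i‖ ≤ avg v := by
  -- both sides as sums over the scales
  have hl : HasSum (fun k => w α j * (5 / 8) * ∑ i, s i * ‖v i k‖)
      (w α j * (5 / 8) * ∑ i, s i * ‖v i‖) := by
    apply HasSum.mul_left
    refine hasSum_sum (fun i _ => ?_)
    rw [Z_norm]
    exact (Z_summable (v i)).hasSum.mul_left _
  obtain ⟨u, hu⟩ : ∃ u : ℤ → ℝ, ∀ k, u k
      = (∑ ε : Fin n → Bool, ‖(∑ i, sg (ε i) • v i : Z M) k‖) / 2 ^ n := ⟨_, fun _ => rfl⟩
  have hr0 : HasSum u (avg v) := by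
    have h1 : HasSum (fun k : ℤ => ∑ ε : Fin n → Bool, ‖(∑ i, sg (ε i) • v i : Z M) k‖)
        (∑ ε : Fin n → Bool, ‖(∑ i, sg (ε i) • v i : Z M)‖) := by
      refine hasSum_sum (fun ε _ => ?_)
      rw [Z_norm]
      exact (Z_summable _).hasSum
    have h2 := h1.div_const (2 ^ n)
    have e : u = fun k : ℤ => (∑ ε : Fin n → Bool, ‖(∑ i, sg (ε i) • v i : Z M) k‖) / 2 ^ n :=
      funext hu
    rw [e]
    exact h2
  have hr : HasSum (fun k : ℤ => u (k + (j : ℤ))) (avg v) :=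
    (Equiv.addRight (j : ℤ)).hasSum_iff.2 hr0
  refine hasSum_le (fun k => ?_) hl hr
  rw [hu]
  exact key_scale v L hL s hs0 hs2 j hs1 k

end Pool.Agent.H6.Snow
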