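import Pool.Agent.H6.Snow.Key

/-!
# Snowflakes embed in spaces of finite cotype
-/

namespace Pool.Agent.H6.Snow

open Finset

variable {M : Type*} [PseudoMetricSpace M]

/-- The Banach space: the closed linear span of the points `F x`. -/
noncomputable def Ysp {α : ℝ} (h0 : 0 < α) (h1 : α < 1) (x₀ : M) : Submodule ℝ (Z M) :=
  (Submodule.span ℝ (Set.range (F h0 h1 x₀))).topologicalClosure

lemma key_closure {α : ℝ} (h0 : 0 < α) (h1 : α < 1) (x₀ : M) {n : ℕ} (v : Fin n → Z M)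
    (hv : ∀ i, v i ∈ Ysp h0 h1 x₀) (s : Fin n → ℝ) (hs0 : ∀ i, 0 ≤ s i)
    (hs2 : ∑ i, s i ^ 2 ≤ 1 / 4) (j : ℕ) (hs1 : ∑ i, s i ≤ 2 ^ j) :
    w α j * (5 / 8) * ∑ i, s i * ‖v i‖ ≤ avg v := by
  set V : Set (Z M) :=
    ((Submodule.span ℝ (Set.range (F h0 h1 x₀)) : Submodule ℝ (Z M)) : Set (Z M)) with hV
  set S : Set (Fin n → Z M) := {u | w α j * (5 / 8) * ∑ i, s i * ‖u i‖ ≤ avg u} with hS
  have hcl : IsClosed S := by
    apply isClosed_le
    · fun_prop
    · unfold avg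
      fun_prop
  have hsub : Set.pi Set.univ (fun _ : Fin n => V) ⊆ S := by
    intro u hu
    have h := fun i => rep_span h0 h1 x₀ (hu i (Set.mem_univ i))
    choose L hL using h
    exact key_rep u L hL s hs0 hs2 j hs1
  have h2 : closure (Set.pi Set.univ (fun _ : Fin n => V)) ⊆ S := hcl.closure_subset_iff.2 hsub
  rw [closure_pi_set] at h2
  apply h2
  intro i _
  have := hv i
  rw [Ysp, ← SetLike.mem_coe, Submodule.topologicalClosure_coe] at this
  exact this

lemma basic_Ysp {α : ℝ} (h0 : 0 < α) (h1 : α < 1) (x₀ : M) :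
    Basic (Ysp h0 h1 x₀) α (5 / 16) := by
  classical
  intro k v A j hA
  have hcard : (A.card : ℝ) ≤ 4 ^ j := by exact_mod_cast hA
  set r : ℝ := 1 / 2 * (1 / 2) ^ j with hr
  have hr0 : 0 < r := by positivity
  have hr2 : r ^ 2 * 4 ^ j = 1 / 4 := by
    rw [hr, mul_pow, ← pow_mul, mul_comm j 2, pow_mul, mul_assoc, ← mul_pow]
    norm_num
  have h2j : (1 : ℝ) ≤ 2 ^ j := one_le_pow₀ (by norm_num)
  have hr1 : r * 4 ^ j = 1 / 2 * 2 ^ j := by
    rw [hr, mul_assoc, ← mul_pow]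
    norm_num
  have h := key_closure h0 h1 x₀ (fun i => (v i : Z M)) (fun i => (v i).2)
    (fun i => if i ∈ A then r else 0) (fun i => by split_ifs <;> linarith) (by
      calc ∑ i, (if i ∈ A then r else 0) ^ 2 = ∑ i, (if i ∈ A then r ^ 2 else 0) := by
            refine Finset.sum_congr rfl (fun i _ => ?_)
            split_ifs <;> simp
        _ = A.card * r ^ 2 := by
            rw [Finset.sum_ite_mem, Finset.univ_inter, Finset.sum_const, nsmul_eq_mul]
        _ ≤ 4 ^ j * r ^ 2 := mul_le_mul_of_nonneg_right hcard (by positivity)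
        _ = 1 / 4 := by rw [mul_comm]; exact hr2) j (by
      calc ∑ i, (if i ∈ A then r else 0) = A.card * r := by
            rw [Finset.sum_ite_mem, Finset.univ_inter, Finset.sum_const, nsmul_eq_mul]
        _ ≤ 4 ^ j * r := mul_le_mul_of_nonneg_right hcard hr0.le
        _ = 1 / 2 * 2 ^ j := by rw [mul_comm]; exact hr1
        _ ≤ 2 ^ j := by linarith)
  have e1 : avg (fun i => (v i : Z M)) = avg v := by
    unfold avg
    congr 1
    refine Finset.sum_congr rfl (fun ε _ => ?_)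
    have e0 : ((∑ j, sg (ε j) • v j : Ysp h0 h1 x₀) : Z M) = ∑ j, sg (ε j) • (v j : Z M) := by
      push_cast
      rfl
    show ‖∑ j, sg (ε j) • (v j : Z M)‖ = ‖((∑ j, sg (ε j) • v j : Ysp h0 h1 x₀) : Z M)‖
    rw [e0]
  have e2 : ∑ i, (if i ∈ A then r else 0) * ‖(v i : Z M)‖ = r * ∑ i ∈ A, ‖v i‖ := by
    rw [Finset.mul_sum, ← Finset.sum_filter_add_sum_filter_not univ (· ∈ A)]
    rw [Finset.sum_congr rfl (g := fun i => r * ‖v i‖) (s₁ := univ.filter (· ∈ A)) (fun i hi => by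
      rw [if_pos (Finset.mem_filter.1 hi).2]; rfl)]
    rw [Finset.sum_congr rfl (g := fun i => 0) (s₁ := univ.filter (¬ · ∈ A)) (fun i hi => by
      rw [if_neg (Finset.mem_filter.1 hi).2, zero_mul])]
    rw [Finset.sum_const_zero, add_zero]
    congr 1
    ext i
    simp
  rw [e1, e2] at h
  refine le_trans (le_of_eq ?_) h
  have e3 : (2 : ℝ) ^ (-((1 + α) * j)) = w α j * (1 / 2) ^ j := by
    unfold w
    rw [one_div, inv_pow, ← Real.rpow_natCast, ← Real.rpow_neg (by norm_num),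
      ← Real.rpow_add (by norm_num)]
    congr 1
    push_cast
    ring
  rw [e3, hr]
  ring

/-- The constant of the upper estimate. -/
noncomputable def Kα (α : ℝ) : ℝ := ∑' k : ℤ, w α k * min 2 ((2 : ℝ) ^ k)

lemma w_eq (α : ℝ) (k : ℤ) : w α k = ((2 : ℝ) ^ k) ^ (-α) := by
  unfold w
  rw [← Real.rpow_intCast, ← Real.rpow_mul (by norm_num)]
  congr 1
  ring

lemma F_sub_apply {α : ℝ} (h0 : 0 < α) (h1 : α < 1) (x₀ x y : M) (k : ℤ) :
    (F h0 h1 x₀ x - F h0 h1 x₀ y : Z M) k = w α k • (delta x₀ x k - delta x₀ y k) := by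
  rw [lp.coeFn_sub, Pi.sub_apply, F_apply, F_apply, smul_sub]

lemma snow_upper {α : ℝ} (h0 : 0 < α) (h1 : α < 1) (x₀ x y : M) :
    ‖F h0 h1 x₀ x - F h0 h1 x₀ y‖ ≤ 2 * Kα α * dist x y ^ α := by
  have hterm : ∀ k : ℤ, ‖(F h0 h1 x₀ x - F h0 h1 x₀ y : Z M) k‖
      ≤ w α k * min 2 ((2 : ℝ) ^ k * dist x y) := by
    intro k
    rw [F_sub_apply, norm_smul, Real.norm_eq_abs, abs_of_pos (w_pos _ _)]
    exact mul_le_mul_of_nonneg_left (norm_delta_sub_le x₀ x y k) (w_pos _ _).le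
  have hsm := summable_w_min h0 h1
  rcases (dist_nonneg (x := x) (y := y)).eq_or_lt with hd | hd
  · have : ‖F h0 h1 x₀ x - F h0 h1 x₀ y‖ ≤ 0 := by
      rw [Z_norm]
      refine tsum_nonpos (fun k => le_trans (hterm k) ?_)
      rw [← hd, mul_zero, min_eq_right (by norm_num), mul_zero]
    rw [← hd, Real.zero_rpow h0.ne', mul_zero]
    exact this
  · set d := dist x y with hdd
    obtain ⟨k0, hk0⟩ := exists_mem_Ico_zpow (x := 1 / d) (y := (2 : ℝ)) (by positivity)
      (by norm_num)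
    have hk1 : (2 : ℝ) ^ k0 * d ≤ 1 := by
      have := hk0.1
      rwa [le_div_iff₀ hd] at this
    have hk2 : 1 < 2 * ((2 : ℝ) ^ k0 * d) := by
      have := hk0.2
      rw [div_lt_iff₀ hd, zpow_add₀ (by norm_num), zpow_one] at this
      linarith
    have hw0 : w α k0 ≤ 2 * d ^ α := by
      rw [w_eq]
      have h2 : (2 * d)⁻¹ ≤ (2 : ℝ) ^ k0 := by
        rw [inv_eq_one_div, div_le_iff₀ (by positivity)]
        linarith
      calc ((2 : ℝ) ^ k0) ^ (-α) ≤ ((2 * d)⁻¹) ^ (-α) :=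
            Real.rpow_le_rpow_of_nonpos (by positivity) h2 (by linarith)
        _ = (2 * d) ^ α := by
            rw [Real.rpow_neg (by positivity), Real.inv_rpow (by positivity), inv_inv]
        _ = (2 : ℝ) ^ α * d ^ α := Real.mul_rpow (by norm_num) hd.le
        _ ≤ 2 * d ^ α := by
            apply mul_le_mul_of_nonneg_right _ (by positivity)
            calc (2 : ℝ) ^ α ≤ (2 : ℝ) ^ (1 : ℝ) :=
                  Real.rpow_le_rpow_of_exponent_le (by norm_num) h1.le
              _ = 2 := Real.rpow_one _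
    have hK0 : 0 ≤ Kα α := tsum_nonneg (fun k =>
      mul_nonneg (w_pos α k).le (le_min (by norm_num) (by positivity)))
    have hshift : ‖F h0 h1 x₀ x - F h0 h1 x₀ y‖
        = ∑' m : ℤ, ‖(F h0 h1 x₀ x - F h0 h1 x₀ y : Z M) (m + k0)‖ := by
      rw [Z_norm]
      exact ((Equiv.addRight k0).tsum_eq
        (fun k => ‖(F h0 h1 x₀ x - F h0 h1 x₀ y : Z M) k‖)).symm
    have hle : ∀ m : ℤ, ‖(F h0 h1 x₀ x - F h0 h1 x₀ y : Z M) (m + k0)‖
        ≤ w α k0 * (w α m * min 2 ((2 : ℝ) ^ m)) := by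
      intro m
      refine le_trans (hterm _) ?_
      rw [w_add, mul_comm (w α m), mul_assoc]
      apply mul_le_mul_of_nonneg_left _ (w_pos _ _).le
      apply mul_le_mul_of_nonneg_left _ (w_pos _ _).le
      apply min_le_min_left
      rw [zpow_add₀ (by norm_num), mul_assoc]
      calc (2 : ℝ) ^ m * ((2 : ℝ) ^ k0 * d) ≤ (2 : ℝ) ^ m * 1 :=
            mul_le_mul_of_nonneg_left hk1 (by positivity)
        _ = (2 : ℝ) ^ m := mul_one _
    rw [hshift]
    have hs2 : Summable (fun m : ℤ => w α k0 * (w α m * min 2 ((2 : ℝ) ^ m))) :=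
      hsm.mul_left _
    calc ∑' m : ℤ, ‖(F h0 h1 x₀ x - F h0 h1 x₀ y : Z M) (m + k0)‖
        ≤ ∑' m : ℤ, w α k0 * (w α m * min 2 ((2 : ℝ) ^ m)) :=
          (Summable.of_nonneg_of_le (fun m => norm_nonneg _) hle hs2).tsum_le_tsum hle hs2
      _ = w α k0 * Kα α := tsum_mul_left
      _ ≤ (2 * d ^ α) * Kα α := mul_le_mul_of_nonneg_right hw0 hK0
      _ = 2 * Kα α * d ^ α := by ring

lemma snow_lower {α : ℝ} (h0 : 0 < α) (h1 : α < 1) (x₀ x y : M) :
    1 / 2 * dist x y ^ α ≤ ‖F h0 h1 x₀ x - F h0 h1 x₀ y‖ := by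
  rcases (dist_nonneg (x := x) (y := y)).eq_or_lt with hd | hd
  · rw [← hd, Real.zero_rpow h0.ne', mul_zero]
    exact norm_nonneg _
  · set d := dist x y with hdd
    obtain ⟨k0, hk0⟩ := exists_mem_Ico_zpow (x := 1 / d) (y := (2 : ℝ)) (by positivity)
      (by norm_num)
    have hk1 : (2 : ℝ) ^ k0 * d ≤ 1 := by
      have := hk0.1
      rwa [le_div_iff₀ hd] at this
    have hk2 : 1 < 2 * ((2 : ℝ) ^ k0 * d) := by
      have := hk0.2
      rw [div_lt_iff₀ hd, zpow_add₀ (by norm_num), zpow_one] at this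
      linarith
    let φ : Test M ((2 : ℝ) ^ k0) :=
      { fn := fun z => min 2 ((2 : ℝ) ^ k0 * dist z y) - 1
        bdd := fun z => by
          have h1 : min 2 ((2 : ℝ) ^ k0 * dist z y) ≤ 2 := min_le_left _ _
          have h2 : 0 ≤ min 2 ((2 : ℝ) ^ k0 * dist z y) := le_min (by norm_num) (by positivity)
          rw [abs_le]
          constructor <;> linarith
        lip := fun z z' => by
          have h1 : |min 2 ((2 : ℝ) ^ k0 * dist z y) - min 2 ((2 : ℝ) ^ k0 * dist z' y)|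
              ≤ |(2 : ℝ) ^ k0 * dist z y - (2 : ℝ) ^ k0 * dist z' y| := by
            have := abs_min_sub_min_le_max 2 ((2 : ℝ) ^ k0 * dist z y) 2
              ((2 : ℝ) ^ k0 * dist z' y)
            simpa using this
          rw [show min 2 ((2 : ℝ) ^ k0 * dist z y) - 1 - (min 2 ((2 : ℝ) ^ k0 * dist z' y) - 1)
            = min 2 ((2 : ℝ) ^ k0 * dist z y) - min 2 ((2 : ℝ) ^ k0 * dist z' y) by ring]
          refine le_trans h1 ?_
          rw [← mul_sub, abs_mul, abs_of_pos (by positivity : (0 : ℝ) < (2 : ℝ) ^ k0)]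
          exact mul_le_mul_of_nonneg_left (abs_dist_sub_le z z' y) (by positivity) }
    have hval : (F h0 h1 x₀ x - F h0 h1 x₀ y : Z M) k0 φ = w α k0 * ((2 : ℝ) ^ k0 * d) := by
      rw [F_sub_apply, BoundedContinuousFunction.smul_apply, BoundedContinuousFunction.sub_apply,
        delta_apply, delta_apply, smul_eq_mul]
      have e1 : φ.fn x = (2 : ℝ) ^ k0 * d - 1 := by
        show min 2 ((2 : ℝ) ^ k0 * dist x y) - 1 = _
        rw [min_eq_right (by linarith)]
      have e2 : φ.fn y = -1 := by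
        show min 2 ((2 : ℝ) ^ k0 * dist y y) - 1 = _
        rw [dist_self, mul_zero, min_eq_right (by norm_num)]
        norm_num
      rw [e1, e2]
      ring
    have h3 := abs_apply_le (F h0 h1 x₀ x - F h0 h1 x₀ y) k0 φ
    rw [hval] at h3
    have h4 : ‖(F h0 h1 x₀ x - F h0 h1 x₀ y : Z M) k0‖ ≤ ‖F h0 h1 x₀ x - F h0 h1 x₀ y‖ :=
      lp.norm_apply_le_norm one_ne_zero _ _
    refine le_trans ?_ (le_trans (le_abs_self _) (le_trans h3 h4))
    have h5 : (2 * d)⁻¹ ≤ (2 : ℝ) ^ k0 := by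
      rw [inv_eq_one_div, div_le_iff₀ (by positivity)]
      linarith
    rw [w_eq]
    have hp : (0 : ℝ) < (2 : ℝ) ^ k0 := by positivity
    calc 1 / 2 * d ^ α = (1 / 2 : ℝ) ^ (1 : ℝ) * d ^ α := by rw [Real.rpow_one]
      _ ≤ (1 / 2 : ℝ) ^ (1 - α) * d ^ α := by
          apply mul_le_mul_of_nonneg_right _ (by positivity)
          exact Real.rpow_le_rpow_of_exponent_ge (by norm_num) (by norm_num) (by linarith)
      _ = ((2 * d)⁻¹) ^ (1 - α) * d := by
          rw [mul_inv, Real.mul_rpow (by norm_num) (by positivity), Real.inv_rpow hd.le,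
            ← Real.rpow_neg hd.le, mul_assoc, one_div]
          congr 1
          nth_rewrite 3 [← Real.rpow_one d]
          rw [← Real.rpow_add hd]
          congr 1
          ring
      _ ≤ ((2 : ℝ) ^ k0) ^ (1 - α) * d := by
          apply mul_le_mul_of_nonneg_right _ hd.le
          exact Real.rpow_le_rpow (by positivity) h5 (by linarith)
      _ = ((2 : ℝ) ^ k0) ^ (-α) * ((2 : ℝ) ^ k0 * d) := by
          rw [← mul_assoc]
          congr 1
          nth_rewrite 3 [← Real.rpow_one ((2 : ℝ) ^ k0)]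
          rw [← Real.rpow_add hp]
          congr 1
          ring

/-- **Snowflakes embed in spaces of finite cotype.** -/
theorem snowflake.{u} (α : ℝ) (h0 : 0 < α) (h1 : α < 1) :
    ∃ K : ℝ, 0 < K ∧ ∃ C : ℝ → ℝ, ∀ (M : Type u) [PseudoMetricSpace M],
      ∃ (Y : Type u) (_ : NormedAddCommGroup Y) (_ : NormedSpace ℝ Y),
        CompleteSpace Y ∧ (∀ q, 2 / (1 - α) < q → HasCotype Y q (C q)) ∧
        ∃ f : M → Y, ∀ x y, 1 / 2 * dist x y ^ α ≤ ‖f x - f y‖ ∧
          ‖f x - f y‖ ≤ K * dist x y ^ α := by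
  refine ⟨2 * Kα α, ?_, fun q => 4 / (5 / 16) *
    (∑' l : ℕ, ((l + 1 : ℕ) : ℝ) ^ (-((1 - α) / 2 * q))) ^ (1 / q), ?_⟩
  · have := (summable_w_min h0 h1).tsum_pos (fun k =>
      mul_nonneg (w_pos α k).le (le_min (by norm_num) (by positivity))) 0
      (mul_pos (w_pos α 0) (lt_min (by norm_num) (by positivity)))
    unfold Kα
    linarith
  · intro M _
    rcases isEmpty_or_nonempty M with hM | ⟨⟨x₀⟩⟩
    · exact ⟨Ysp (M := PUnit.{u + 1}) h0 h1 PUnit.unit, inferInstance, inferInstance,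
        (Submodule.isClosed_topologicalClosure _).completeSpace_coe,
        fun q hq => hasCotype_of_basic h0 h1 (by norm_num) (basic_Ysp h0 h1 PUnit.unit) hq,
        fun x => hM.elim x, fun x => hM.elim x⟩
    · refine ⟨Ysp h0 h1 x₀, inferInstance, inferInstance, ?_, ?_, fun x => ⟨F h0 h1 x₀ x, ?_⟩, ?_⟩
      · exact (Submodule.isClosed_topologicalClosure _).completeSpace_coe
      · intro q hq
        exact hasCotype_of_basic h0 h1 (by norm_num) (basic_Ysp h0 h1 x₀) hq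
      · exact Submodule.le_topologicalClosure _ (Submodule.subset_span ⟨x, rfl⟩)
      · intro x y
        exact ⟨snow_lower h0 h1 x₀ x y, snow_upper h0 h1 x₀ x y⟩

end Pool.Agent.H6.Snow
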