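import Pool.Agent.H6.Snow.Cotype

/-!
# The space

`Z = ℓ¹(ℤ; ℓ^∞(Test_k))`, where `Test_k` is the set of functions `φ` on `M` with `|φ| ≤ 1` and
Lipschitz constant at most `2^k`; a point `x` is sent to
`F x = (2^{-αk} (φ(x) - φ(x₀)))_{k, φ}` and the space `Y` is the closed span of the `F x`.
-/

namespace Pool.Agent.H6.Snow

open Finset
open scoped ENNReal

/-- Functions bounded by `1` with Lipschitz constant at most `t`. -/
structure Test (M : Type*) [PseudoMetricSpace M] (t : ℝ) where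
  /-- the function -/
  fn : M → ℝ
  /-- it is bounded by `1` -/
  bdd : ∀ x, |fn x| ≤ 1
  /-- it is `t`-Lipschitz -/
  lip : ∀ x y, |fn x - fn y| ≤ t * dist x y

instance (M : Type*) [PseudoMetricSpace M] (t : ℝ) : TopologicalSpace (Test M t) := ⊥

instance (M : Type*) [PseudoMetricSpace M] (t : ℝ) : DiscreteTopology (Test M t) := ⟨rfl⟩

variable {M : Type*} [PseudoMetricSpace M]

/-- The bounded functions on the set of test functions of scale `2^k`. -/
abbrev E (M : Type*) [PseudoMetricSpace M] (k : ℤ) : Type _ :=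
  BoundedContinuousFunction (Test M ((2 : ℝ) ^ k)) ℝ

/-- The big space `ℓ¹(ℤ; ℓ^∞(Test_k))`. -/
abbrev Z (M : Type*) [PseudoMetricSpace M] : Type _ := lp (fun k : ℤ => E M k) 1

instance (k : ℤ) : Nonempty (Test M ((2 : ℝ) ^ k)) :=
  ⟨⟨fun _ => 0, fun _ => by simp, fun x y => by simp; positivity⟩⟩

lemma Z_norm (v : Z M) : ‖v‖ = ∑' k, ‖v k‖ := by
  rw [lp.norm_eq_tsum_rpow (by simp)]
  simp

lemma Z_summable (v : Z M) : Summable (fun k => ‖v k‖) := by
  have h := (lp.memℓp v).summable (by simp)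
  simpa using h

/-- The evaluation functional of `x`, normalised at `x₀`, at scale `k`. -/
noncomputable def delta (x₀ x : M) (k : ℤ) : E M k :=
  BoundedContinuousFunction.ofNormedAddCommGroupDiscrete (fun φ => φ.fn x - φ.fn x₀) 2 (fun φ => by
    rw [Real.norm_eq_abs]
    have h1 := φ.bdd x
    have h2 := φ.bdd x₀
    exact le_trans (abs_sub _ _) (by linarith))

lemma delta_apply (x₀ x : M) (k : ℤ) (φ : Test M ((2 : ℝ) ^ k)) :
    delta x₀ x k φ = φ.fn x - φ.fn x₀ := rfl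

/-- The weight `2^{-αk}`. -/
noncomputable def w (α : ℝ) (k : ℤ) : ℝ := (2 : ℝ) ^ (-(α * k))

lemma w_pos (α : ℝ) (k : ℤ) : 0 < w α k := Real.rpow_pos_of_pos (by norm_num) _

lemma w_add (α : ℝ) (k : ℤ) (j : ℤ) : w α (k + j) = w α k * w α j := by
  unfold w
  rw [← Real.rpow_add (by norm_num)]
  congr 1
  push_cast
  ring

/-- The basic two-sided summable sequence. -/
lemma summable_w_min {α : ℝ} (h0 : 0 < α) (h1 : α < 1) :
    Summable (fun k : ℤ => w α k * min 2 ((2 : ℝ) ^ k)) := by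
  have hnn : ∀ k : ℤ, 0 ≤ w α k * min 2 ((2 : ℝ) ^ k) := fun k =>
    mul_nonneg (w_pos α k).le (le_min (by norm_num) (by positivity))
  apply Summable.of_nat_of_neg
  · have hg : Summable (fun n : ℕ => 2 * ((2 : ℝ) ^ (-α)) ^ n) :=
      (summable_geometric_of_lt_one (by positivity)
        (Real.rpow_lt_one_of_one_lt_of_neg (by norm_num) (by linarith))).mul_left 2
    refine Summable.of_nonneg_of_le (fun n => hnn _) (fun n => ?_) hg
    have e : w α (n : ℤ) = ((2 : ℝ) ^ (-α)) ^ n := by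
      unfold w
      rw [← Real.rpow_natCast, ← Real.rpow_mul (by norm_num)]
      congr 1
      push_cast
      ring
    rw [e, mul_comm]
    exact mul_le_mul_of_nonneg_right (min_le_left _ _) (by positivity)
  · have hg : Summable (fun n : ℕ => ((2 : ℝ) ^ (-(1 - α))) ^ n) :=
      summable_geometric_of_lt_one (by positivity)
        (Real.rpow_lt_one_of_one_lt_of_neg (by norm_num) (by linarith))
    refine Summable.of_nonneg_of_le (fun n => hnn _) (fun n => ?_) hg
    have e : ((2 : ℝ) ^ (-(1 - α))) ^ n = w α (-(n : ℤ)) * (2 : ℝ) ^ (-(n : ℤ)) := by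
      unfold w
      rw [← Real.rpow_natCast, ← Real.rpow_mul (by norm_num), ← Real.rpow_intCast,
        ← Real.rpow_add (by norm_num)]
      congr 1
      push_cast
      ring
    rw [e]
    exact mul_le_mul_of_nonneg_left (min_le_right _ _) (w_pos _ _).le

lemma norm_delta_sub_le (x₀ x y : M) (k : ℤ) :
    ‖delta x₀ x k - delta x₀ y k‖ ≤ min 2 ((2 : ℝ) ^ k * dist x y) := by
  rw [BoundedContinuousFunction.norm_le (le_min (by norm_num) (by positivity))]
  intro φ
  have e : (delta x₀ x k - delta x₀ y k : E M k) φ = φ.fn x - φ.fn y := by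
    rw [BoundedContinuousFunction.sub_apply, delta_apply, delta_apply]
    ring
  rw [e, Real.norm_eq_abs]
  refine le_min ?_ (φ.lip x y)
  have h1 := φ.bdd x
  have h2 := φ.bdd y
  exact le_trans (abs_sub _ _) (by linarith)

lemma delta_self (x₀ : M) (k : ℤ) : delta x₀ x₀ k = 0 := by
  ext φ
  rw [delta_apply, sub_self]
  rfl

lemma min_mul_le {k : ℤ} {d : ℝ} :
    min 2 ((2 : ℝ) ^ k * d) ≤ max 1 d * min 2 ((2 : ℝ) ^ k) := by
  have h1 : (1 : ℝ) ≤ max 1 d := le_max_left _ _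
  rcases le_total (2 : ℝ) ((2 : ℝ) ^ k) with h | h
  · rw [min_eq_left h]
    exact le_trans (min_le_left _ _) (by linarith)
  · rw [min_eq_right h]
    refine le_trans (min_le_right _ _) ?_
    rw [mul_comm]
    exact mul_le_mul_of_nonneg_right (le_max_right _ _) (by positivity)

/-- The embedding. -/
noncomputable def F {α : ℝ} (h0 : 0 < α) (h1 : α < 1) (x₀ x : M) : Z M :=
  ⟨fun k => w α k • delta x₀ x k, memℓp_gen (by
    have hs := (summable_w_min h0 h1).mul_left (max 1 (dist x x₀))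
    refine Summable.of_nonneg_of_le (fun k => by positivity) (fun k => ?_) hs
    rw [ENNReal.toReal_one, Real.rpow_one, norm_smul, Real.norm_eq_abs, abs_of_pos (w_pos _ _)]
    have h := norm_delta_sub_le x₀ x x₀ k
    rw [delta_self, sub_zero] at h
    calc w α k * ‖delta x₀ x k‖ ≤ w α k * (max 1 (dist x x₀) * min 2 ((2 : ℝ) ^ k)) :=
          mul_le_mul_of_nonneg_left (le_trans h min_mul_le) (w_pos _ _).le
      _ = max 1 (dist x x₀) * (w α k * min 2 ((2 : ℝ) ^ k)) := by ring)⟩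

lemma F_apply {α : ℝ} (h0 : 0 < α) (h1 : α < 1) (x₀ x : M) (k : ℤ) :
    F h0 h1 x₀ x k = w α k • delta x₀ x k := rfl

/-- `v` is given by the linear functional `L` on functions. -/
def Rep (α : ℝ) (v : Z M) (L : (M → ℝ) →ₗ[ℝ] ℝ) : Prop :=
  ∀ (k : ℤ) (φ : Test M ((2 : ℝ) ^ k)), v k φ = w α k * L φ.fn

lemma rep_F {α : ℝ} (h0 : 0 < α) (h1 : α < 1) (x₀ x : M) :
    Rep α (F h0 h1 x₀ x) ((LinearMap.proj x : (M → ℝ) →ₗ[ℝ] ℝ) - LinearMap.proj x₀) := by
  intro k φ
  rw [F_apply, BoundedContinuousFunction.smul_apply, delta_apply, smul_eq_mul]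
  rfl

lemma rep_span {α : ℝ} (h0 : 0 < α) (h1 : α < 1) (x₀ : M) {v : Z M}
    (hv : v ∈ Submodule.span ℝ (Set.range (F h0 h1 x₀))) : ∃ L, Rep α v L := by
  induction hv using Submodule.span_induction with
  | mem x hx =>
    obtain ⟨y, rfl⟩ := hx
    exact ⟨_, rep_F h0 h1 x₀ y⟩
  | zero =>
    refine ⟨0, fun k φ => ?_⟩
    rw [lp.coeFn_zero, Pi.zero_apply, BoundedContinuousFunction.coe_zero, Pi.zero_apply,
      LinearMap.zero_apply, mul_zero]
  | add x y _ _ hx hy =>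
    obtain ⟨L, hL⟩ := hx
    obtain ⟨L', hL'⟩ := hy
    refine ⟨L + L', fun k φ => ?_⟩
    rw [lp.coeFn_add, Pi.add_apply, BoundedContinuousFunction.add_apply, hL, hL',
      LinearMap.add_apply]
    ring
  | smul a x _ hx =>
    obtain ⟨L, hL⟩ := hx
    refine ⟨a • L, fun k φ => ?_⟩
    rw [lp.coeFn_smul, Pi.smul_apply, BoundedContinuousFunction.smul_apply, hL,
      LinearMap.smul_apply, smul_eq_mul, smul_eq_mul]
    ring

lemma abs_apply_le (v : Z M) (k : ℤ) (φ : Test M ((2 : ℝ) ^ k)) : |v k φ| ≤ ‖v k‖ :=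
  (v k).norm_coe_le_norm φ

lemma rep_bound {α : ℝ} {v : Z M} {L : (M → ℝ) →ₗ[ℝ] ℝ} (hL : Rep α v L) (k : ℤ) {r : M → ℝ}
    {b : ℝ} (hb : 0 ≤ b) (hr : ∀ x, |r x| ≤ b)
    (hr2 : ∀ x y, |r x - r y| ≤ b * ((2 : ℝ) ^ k * dist x y)) :
    |w α k * L r| ≤ b * ‖v k‖ := by
  rcases hb.eq_or_lt with h | h
  · have : r = 0 := by
      funext x
      have := hr x
      rw [← h] at this
      exact abs_eq_zero.1 (le_antisymm this (abs_nonneg _))
    rw [this, map_zero, mul_zero, abs_zero, ← h, zero_mul]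
  · let φ : Test M ((2 : ℝ) ^ k) := ⟨fun x => b⁻¹ * r x, fun x => by
      rw [abs_mul, abs_of_pos (inv_pos.2 h), inv_mul_le_iff₀ h, mul_one]
      exact hr x, fun x y => by
      rw [← mul_sub, abs_mul, abs_of_pos (inv_pos.2 h), inv_mul_le_iff₀ h]
      exact hr2 x y⟩
    have h2 := abs_apply_le v k φ
    rw [hL k φ] at h2
    have e : φ.fn = b⁻¹ • r := rfl
    rw [e, map_smul, smul_eq_mul] at h2
    have e2 : w α k * L r = b * (w α k * (b⁻¹ * L r)) := by
      field_simp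
    rw [e2, abs_mul, abs_of_pos h]
    exact mul_le_mul_of_nonneg_left h2 h.le

lemma exists_test {α : ℝ} {v : Z M} {L : (M → ℝ) →ₗ[ℝ] ℝ} (hL : Rep α v L) (k : ℤ) {δ : ℝ}
    (hδ : 0 < δ) : ∃ φ : Test M ((2 : ℝ) ^ k), ‖v k‖ - δ < w α k * L φ.fn := by
  have h : ‖v k‖ - δ < ⨆ φ, ‖v k φ‖ := by
    rw [← BoundedContinuousFunction.norm_eq_iSup_norm]
    linarith
  obtain ⟨φ, hφ⟩ := exists_lt_of_lt_ciSup h
  rw [Real.norm_eq_abs, hL k φ] at hφ
  rcases le_total 0 (w α k * L φ.fn) with h1 | h1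
  · rw [abs_of_nonneg h1] at hφ
    exact ⟨φ, hφ⟩
  · rw [abs_of_nonpos h1] at hφ
    refine ⟨⟨fun x => -φ.fn x, fun x => ?_, fun x y => ?_⟩, ?_⟩
    · rw [abs_neg]; exact φ.bdd x
    · rw [show -φ.fn x - -φ.fn y = -(φ.fn x - φ.fn y) by ring, abs_neg]; exact φ.lip x y
    · have e : (fun x => -φ.fn x) = -φ.fn := rfl
      show ‖v k‖ - δ < w α k * L (fun x => -φ.fn x)
      rw [e, map_neg]
      linarith

end Pool.Agent.H6.Snow
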