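import Mathlib

/-!
# The trigonometric test functions

Scalar estimates for `sin (θ_i) ∏_{j ≠ i} cos (θ_j)` as a perturbation of `θ_i`, and the average
of `ε_i sin (∑ ε_j θ_j)` over signs.
-/

namespace Pool.Agent.H6.Snow

open Finset

/-- The sign attached to a Boolean. -/
noncomputable def sg (b : Bool) : ℝ := if b then 1 else -1

@[simp] lemma sg_true : sg true = 1 := rfl
@[simp] lemma sg_false : sg false = -1 := rfl

lemma abs_sg (b : Bool) : |sg b| = 1 := by cases b <;> simp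

/-- `u ↦ u - sin u` is `s²/2`-Lipschitz on `[-s, s]`. -/
lemma sub_sin_lip {s u v : ℝ} (hu : |u| ≤ s) (hv : |v| ≤ s) :
    |(u - Real.sin u) - (v - Real.sin v)| ≤ s ^ 2 / 2 * |u - v| := by
  have h := Convex.norm_image_sub_le_of_norm_hasDerivWithin_le
    (f := fun x : ℝ => x - Real.sin x) (f' := fun x => 1 - Real.cos x) (s := Set.Icc (-s) s)
    (x := v) (y := u) (C := s ^ 2 / 2)
    (fun x _ => ((hasDerivAt_id x).sub (Real.hasDerivAt_sin x)).hasDerivWithinAt)
    (fun x hx => by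
      rw [Real.norm_eq_abs, abs_of_nonneg (by linarith [Real.cos_le_one x])]
      have h1 := Real.one_sub_sq_div_two_le_cos (x := x)
      have h2 : x ^ 2 ≤ s ^ 2 := sq_le_sq' hx.1 hx.2
      linarith)
    (convex_Icc _ _) ⟨by linarith [(abs_le.1 hv).1], (abs_le.1 hv).2⟩
    ⟨by linarith [(abs_le.1 hu).1], (abs_le.1 hu).2⟩
  simpa [Real.norm_eq_abs] using h

/-- `cos` is `s`-Lipschitz on `[-s, s]`. -/
lemma cos_lip {s u v : ℝ} (hu : |u| ≤ s) (hv : |v| ≤ s) :
    |Real.cos u - Real.cos v| ≤ s * |u - v| := by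
  have h := Convex.norm_image_sub_le_of_norm_hasDerivWithin_le
    (f := fun x : ℝ => Real.cos x) (f' := fun x => -Real.sin x) (s := Set.Icc (-s) s)
    (x := v) (y := u) (C := s)
    (fun x _ => (Real.hasDerivAt_cos x).hasDerivWithinAt)
    (fun x hx => by
      rw [norm_neg, Real.norm_eq_abs]
      exact le_trans Real.abs_sin_le_abs (abs_le.2 hx))
    (convex_Icc _ _) ⟨by linarith [(abs_le.1 hv).1], (abs_le.1 hv).2⟩
    ⟨by linarith [(abs_le.1 hu).1], (abs_le.1 hu).2⟩
  simpa [Real.norm_eq_abs] using h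

lemma prod_sub_prod_le {ι : Type*} (A : Finset ι) (a b : ι → ℝ) (ha : ∀ i ∈ A, |a i| ≤ 1)
    (hb : ∀ i ∈ A, |b i| ≤ 1) :
    |∏ i ∈ A, a i - ∏ i ∈ A, b i| ≤ ∑ i ∈ A, |a i - b i| := by
  classical
  induction A using Finset.induction_on with
  | empty => simp
  | insert i A hi ih =>
    rw [Finset.prod_insert hi, Finset.prod_insert hi, Finset.sum_insert hi]
    have h1 := ih (fun j hj => ha j (Finset.mem_insert_of_mem hj))
      (fun j hj => hb j (Finset.mem_insert_of_mem hj))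
    have h2 : |∏ j ∈ A, a j| ≤ 1 := by
      rw [Finset.abs_prod]
      exact Finset.prod_le_one (fun _ _ => abs_nonneg _)
        (fun j hj => ha j (Finset.mem_insert_of_mem hj))
    have h3 : a i * ∏ j ∈ A, a j - b i * ∏ j ∈ A, b j
        = (a i - b i) * ∏ j ∈ A, a j + b i * (∏ j ∈ A, a j - ∏ j ∈ A, b j) := by ring
    rw [h3]
    refine le_trans (abs_add_le _ _) ?_
    rw [abs_mul, abs_mul]
    have h4 : |a i - b i| * |∏ j ∈ A, a j| ≤ |a i - b i| * 1 :=
      mul_le_mul_of_nonneg_left h2 (abs_nonneg _)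
    have h5 : |b i| * |∏ j ∈ A, a j - ∏ j ∈ A, b j| ≤ 1 * |∏ j ∈ A, a j - ∏ j ∈ A, b j| :=
      mul_le_mul_of_nonneg_right (hb i (Finset.mem_insert_self _ _)) (abs_nonneg _)
    linarith

/-- The function `sin θ_i ∏_{j ≠ i} cos θ_j`. -/
noncomputable def G {ι : Type*} [Fintype ι] [DecidableEq ι] (i : ι) (θ : ι → ℝ) : ℝ :=
  Real.sin (θ i) * ∏ j ∈ univ.erase i, Real.cos (θ j)

section
variable {ι : Type*} [Fintype ι] [DecidableEq ι]

lemma G_zero (i : ι) : G i (0 : ι → ℝ) = 0 := by simp [G]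

/-- Main scalar estimate: `θ_i - G_i θ` is Lipschitz with a small constant. -/
lemma G_lip {s : ι → ℝ} (hs2 : ∑ i, s i ^ 2 ≤ 1 / 4) {θ η : ι → ℝ}
    (hθ : ∀ i, |θ i| ≤ s i) (hη : ∀ i, |η i| ≤ s i) {τ : ℝ}
    (hd : ∀ i, |θ i - η i| ≤ s i * τ) (hτ : 0 ≤ τ) (i : ι) :
    |(θ i - G i θ) - (η i - G i η)| ≤ 3 / 8 * (s i * τ) := by
  have hs0 : ∀ j, 0 ≤ s j := fun j => le_trans (abs_nonneg _) (hθ j)
  set P := ∏ j ∈ univ.erase i, Real.cos (θ j) with hP
  set Q := ∏ j ∈ univ.erase i, Real.cos (η j) with hQ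
  set R := ∑ j ∈ univ.erase i, s j ^ 2 with hR
  have hRs : s i ^ 2 + R = ∑ j, s j ^ 2 := Finset.add_sum_erase _ (fun j => s j ^ 2) (mem_univ i)
  have hR0 : 0 ≤ R := Finset.sum_nonneg (fun j _ => sq_nonneg _)
  have hQ1 : |1 - Q| ≤ R / 2 := by
    have h := prod_sub_prod_le (univ.erase i) (fun _ => (1 : ℝ)) (fun j => Real.cos (η j))
      (fun _ _ => by simp) (fun j _ => Real.abs_cos_le_one _)
    rw [Finset.prod_const_one] at h
    refine le_trans h ?_
    rw [hR, Finset.sum_div]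
    apply Finset.sum_le_sum
    intro j _
    rw [abs_of_nonneg (by linarith [Real.cos_le_one (η j)])]
    have h1 := Real.one_sub_sq_div_two_le_cos (x := η j)
    have h2 : η j ^ 2 ≤ s j ^ 2 := by
      rw [← sq_abs (η j)]
      exact pow_le_pow_left₀ (abs_nonneg _) (hη j) 2
    linarith
  have hPQ : |P - Q| ≤ R * τ := by
    refine le_trans (prod_sub_prod_le _ _ _ (fun j _ => Real.abs_cos_le_one _)
      (fun j _ => Real.abs_cos_le_one _)) ?_
    rw [hR, Finset.sum_mul]
    apply Finset.sum_le_sum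
    intro j _
    refine le_trans (cos_lip (hθ j) (hη j)) ?_
    have := mul_le_mul_of_nonneg_left (hd j) (hs0 j)
    nlinarith [this]
  have e : (θ i - G i θ) - (η i - G i η)
      = ((θ i - Real.sin (θ i)) - (η i - Real.sin (η i)))
        + ((Real.sin (θ i) - Real.sin (η i)) * (1 - Q) - Real.sin (θ i) * (P - Q)) := by
    simp only [G]
    rw [← hP, ← hQ]
    ring
  rw [e]
  have h1 := sub_sin_lip (hθ i) (hη i)
  have h2 : |Real.sin (θ i) - Real.sin (η i)| ≤ |θ i - η i| := Real.abs_sin_sub_sin_le _ _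
  have h3 : |Real.sin (θ i)| ≤ s i := le_trans Real.abs_sin_le_abs (hθ i)
  have hd' := hd i
  have hb0 : 0 ≤ s i * τ := mul_nonneg (hs0 i) hτ
  calc |((θ i - Real.sin (θ i)) - (η i - Real.sin (η i)))
        + ((Real.sin (θ i) - Real.sin (η i)) * (1 - Q) - Real.sin (θ i) * (P - Q))|
      ≤ |(θ i - Real.sin (θ i)) - (η i - Real.sin (η i))|
        + (|Real.sin (θ i) - Real.sin (η i)| * |1 - Q| + |Real.sin (θ i)| * |P - Q|) := by
        refine le_trans (abs_add_le _ _) ?_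
        gcongr
        refine le_trans (abs_sub _ _) ?_
        rw [abs_mul, abs_mul]
    _ ≤ s i ^ 2 / 2 * (s i * τ) + ((s i * τ) * (R / 2) + s i * (R * τ)) := by
        have h6 : |(θ i - Real.sin (θ i)) - (η i - Real.sin (η i))|
            ≤ s i ^ 2 / 2 * (s i * τ) :=
          le_trans h1 (mul_le_mul_of_nonneg_left hd' (by positivity))
        have h7 : |Real.sin (θ i) - Real.sin (η i)| * |1 - Q| ≤ (s i * τ) * (R / 2) :=
          mul_le_mul (le_trans h2 hd') hQ1 (abs_nonneg _) hb0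
        have h8 : |Real.sin (θ i)| * |P - Q| ≤ s i * (R * τ) :=
          mul_le_mul h3 hPQ (abs_nonneg _) (hs0 i)
        linarith
    _ = (s i ^ 2 / 2 + R / 2 + R) * (s i * τ) := by ring
    _ ≤ 3 / 8 * (s i * τ) := by
        apply mul_le_mul_of_nonneg_right _ hb0
        nlinarith [sq_nonneg (s i)]

/-- Averaging over signs: `∑_ε ε_i sin (∑_j ε_j θ_j) = 2^N sin θ_i ∏_{j ≠ i} cos θ_j`. -/
lemma sum_sign_sin (θ : ι → ℝ) (i : ι) :
    ∑ ε : ι → Bool, sg (ε i) * Real.sin (∑ j, sg (ε j) * θ j)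
      = 2 ^ Fintype.card ι * G i θ := by
  have key : ∑ ε : ι → Bool, ((sg (ε i) : ℝ) : ℂ) *
      Complex.exp ((∑ j, ((sg (ε j) * θ j : ℝ) : ℂ)) * Complex.I)
      = (2 ^ Fintype.card ι * G i θ : ℝ) * Complex.I := by
    have h1 : ∀ ε : ι → Bool, ((sg (ε i) : ℝ) : ℂ) *
        Complex.exp ((∑ j, ((sg (ε j) * θ j : ℝ) : ℂ)) * Complex.I)
        = ∏ j, ((if j = i then ((sg (ε j) : ℝ) : ℂ) else 1) *
            Complex.exp (((sg (ε j) * θ j : ℝ) : ℂ) * Complex.I)) := by
      intro ε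
      rw [Finset.prod_mul_distrib, Finset.prod_ite_eq' univ i, if_pos (mem_univ i),
        Finset.sum_mul, Complex.exp_sum]
    rw [Finset.sum_congr rfl (fun ε _ => h1 ε)]
    rw [← Fintype.piFinset_univ, ← Finset.prod_univ_sum (fun _ => (univ : Finset Bool))
      (fun j b => (if j = i then ((sg b : ℝ) : ℂ) else 1) *
            Complex.exp (((sg b * θ j : ℝ) : ℂ) * Complex.I))]
    rw [← Finset.mul_prod_erase univ _ (mem_univ i)]
    have h2 : ∑ b : Bool, (if i = i then ((sg b : ℝ) : ℂ) else 1) *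
            Complex.exp (((sg b * θ i : ℝ) : ℂ) * Complex.I)
        = 2 * ((Real.sin (θ i) : ℝ) : ℂ) * Complex.I := by
      rw [Fintype.sum_bool]
      simp only [if_true, sg_true, sg_false]
      push_cast
      rw [Complex.exp_mul_I, Complex.exp_mul_I]
      simp only [one_mul, neg_mul, Complex.cos_neg, Complex.sin_neg]
      ring
    have h3 : ∀ j ∈ univ.erase i, ∑ b : Bool, (if j = i then ((sg b : ℝ) : ℂ) else 1) *
            Complex.exp (((sg b * θ j : ℝ) : ℂ) * Complex.I)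
        = 2 * ((Real.cos (θ j) : ℝ) : ℂ) := by
      intro j hj
      rw [Fintype.sum_bool]
      simp only [if_neg (Finset.ne_of_mem_erase hj), sg_true, sg_false, one_mul]
      push_cast
      rw [Complex.exp_mul_I, Complex.exp_mul_I]
      simp only [one_mul, neg_mul, Complex.cos_neg, Complex.sin_neg]
      ring
    rw [h2, Finset.prod_congr rfl h3, Finset.prod_mul_distrib, Finset.prod_const,
      Finset.card_erase_of_mem (mem_univ i), Finset.card_univ]
    have h4 : (2 : ℂ) ^ Fintype.card ι = 2 * 2 ^ (Fintype.card ι - 1) := by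
      rw [← pow_succ']
      congr 1
      have : 0 < Fintype.card ι := Fintype.card_pos_iff.2 ⟨i⟩
      omega
    simp only [G]
    push_cast
    rw [h4]
    ring
  have him := congrArg Complex.im key
  rw [Complex.im_sum] at him
  have h5 : ∀ ε : ι → Bool, (((sg (ε i) : ℝ) : ℂ) *
      Complex.exp ((∑ j, ((sg (ε j) * θ j : ℝ) : ℂ)) * Complex.I)).im
      = sg (ε i) * Real.sin (∑ j, sg (ε j) * θ j) := by
    intro ε
    rw [← Complex.ofReal_sum, Complex.im_ofReal_mul, Complex.exp_ofReal_mul_I_im]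
  rw [Finset.sum_congr rfl (fun ε _ => h5 ε)] at him
  rw [him, Complex.im_ofReal_mul, Complex.I_im, mul_one]

end

end Pool.Agent.H6.Snow
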